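import Pool.Agent.L7h73.SGQ.Base

set_option autoImplicit false
set_option linter.unusedSectionVars false

/-!
# Project SGQ (helper48), part ID
-/

namespace Pool.Agent.L7h73.SGQ

open Pool.Agent.L7h48.SG Pool.Agent.L7h48.SGP
open Pool.Agent.L7h15.SG (em pid mem_pid em_int em_mem em_surj norm_int_le integral_iota
  integral_map exists_pow_principal norm_p_lt)
open Pool.Agent.Y715.Gi (QB KK GK)
open Pool.Agent.L7h73.SGP (rat_int sq_int em_inj exists_tau gen norm_q em_le pid_prime q_mem pid_ne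
  pid_Prime kl exists_q absNorm_gt exists_ord exists_root prime_eq cube_part norm_nat_pow sq_cube)
open NumberField
open scoped nonZeroDivisors

section id

variable {s : QB} {D : ℕ} (hs : s ^ 2 = -(D : QB)) (hsf : Squarefree D) (hD : D % 3 = 2)

include hs hD in
lemma loc_all (ι₀ : QB →ₐ[ℚ] PadicAlgCl 3) {z : QB} (hz : z ∈ KK s) :
    ∃ t : ℚ_[3], algebraMap ℚ_[3] (PadicAlgCl 3) t = ι₀ z := by
  obtain ⟨r, hr⟩ := exists_root (D := D) (by omega)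
  have h1 : (ι₀ s) ^ 2 = (algebraMap ℚ_[3] (PadicAlgCl 3) r) ^ 2 := by
    rw [← map_pow, hs, ← map_pow, hr, map_neg, map_neg, map_natCast, map_natCast]
  obtain ⟨t, ht⟩ : ∃ t : ℚ_[3], algebraMap ℚ_[3] (PadicAlgCl 3) t = ι₀ s := by
    rcases sq_eq_sq_iff_eq_or_eq_neg.1 h1 with h2 | h2
    · exact ⟨r, h2.symm⟩
    · exact ⟨-r, by rw [h2, map_neg]⟩
  obtain ⟨u, v, rfl⟩ := Pool.Agent.Z384.KK_ex hs hz
  refine ⟨(u : ℚ_[3]) + v * t, ?_⟩
  rw [map_add, map_mul, ht, map_add, map_mul, map_ratCast, map_ratCast, map_ratCast, map_ratCast]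

include hs hD in
/-- the orders of an element whose cube roots are unramified outside three -/
lemma three_dvd {ι₀ ι₁ : QB →ₐ[ℚ] PadicAlgCl 3} (hsf : Squarefree D) (hι : ι₁ s = -ι₀ s)
    {z : 𝓞 (KK s)}
    (h1 : ∀ x : QB, x ^ 3 = em s z → RR x)
    (h2 : ∃ t : ℚ_[3], algebraMap ℚ_[3] (PadicAlgCl 3) t ^ 3 = ι₀ (em s z))
    (P : Ideal (𝓞 (KK s))) (hP : Prime P) (hne : P ≠ pid s ι₁) (n : ℕ) (J : Ideal (𝓞 (KK s)))
    (hA : Ideal.span {z} = P ^ n * J) (hJ : ¬ P ∣ J) : 3 ∣ n := by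
  by_cases hP0 : P = pid s ι₀
  · subst hP0
    have h3 := norm3 hs hD hι z n J hA hJ
    obtain ⟨t, ht⟩ := h2
    have h4 : ‖t‖ ^ 3 = (1 / 3 : ℝ) ^ n := by
      rw [← h3, ← ht, norm_pow]
      congr 1
      exact (PadicAlgCl.norm_extends 3 t).symm
    have ht0 : t ≠ 0 := by
      rintro rfl
      rw [norm_zero, zero_pow (by norm_num)] at h4
      have : (0 : ℝ) < (1 / 3) ^ n := by positivity
      linarith
    rw [Padic.norm_eq_zpow_neg_valuation ht0, ← zpow_natCast, ← zpow_mul, one_div, inv_pow,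
      ← zpow_natCast, ← zpow_neg] at h4
    have h5 := (zpow_right_injective₀ (a := (3 : ℝ)) (by norm_num) (by norm_num)) (by
      push_cast at h4
      exact h4)
    omega
  · obtain ⟨q, hq, ι, rfl⟩ := exists_place hs hsf hD P (Ideal.isPrime_of_prime hP) hP.ne_zero
    have hqp := hq.out
    have hq1 : (1 : ℝ) < q := by exact_mod_cast hqp.one_lt
    have hq3 : q ≠ 3 := by
      rintro rfl
      have h3 : pid s ι ∣ pid s ι₀ * pid s ι₁ := by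
        rw [← (three_eq hs hD hι).1, Ideal.dvd_span_singleton]
        exact q_mem ι
      rcases hP.dvd_or_dvd h3 with h4 | h4
      · exact hP0 (prime_eq hP (pid_Prime ι₀) h4)
      · exact hne (prime_eq hP (pid_Prime ι₁) h4)
    obtain ⟨e, J', e1, e2⟩ := exists_ord hP (A := Ideal.span {((q : ℕ) : 𝓞 (KK s))}) (by
      rw [Ne, Ideal.span_singleton_eq_bot]
      exact Nat.cast_ne_zero.2 hqp.ne_zero)
    have h3 := kl ι z n e J J' hA hJ e1 e2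
    obtain ⟨x, hx⟩ := IsAlgClosed.exists_pow_nat_eq (em s z) (n := 3) (by norm_num)
    obtain ⟨m, hm⟩ := h1 x hx q ι hq3
    have h4 : ‖ι (em s z)‖ ^ 2 = (q : ℝ) ^ (3 * m) := by
      rw [← hx, map_pow, norm_pow, ← pow_mul, mul_comm 3 2, pow_mul, hm, ← zpow_natCast,
        ← zpow_mul, mul_comm]
      norm_num
    have h5 : ((q : ℝ) ^ (3 * m)) ^ e = (((q : ℝ)⁻¹) ^ n) ^ 2 := by
      rw [← h4, ← h3]
      ring
    rw [← zpow_natCast, ← zpow_mul, inv_pow, inv_pow, ← zpow_natCast, ← zpow_natCast, ← zpow_mul,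
      ← zpow_neg] at h5
    have h6 := (zpow_right_injective₀ (a := (q : ℝ)) (by linarith) (by linarith [hq1])) h5
    have h7 : (3 : ℤ) ∣ 2 * n := ⟨-(m * e), by push_cast at h6; linarith⟩
    omega

include hs hD in
/-- the cubic ideal -/
lemma step_d {ι₀ ι₁ : QB →ₐ[ℚ] PadicAlgCl 3} (hsf : Squarefree D) (hι : ι₁ s = -ι₀ s)
    {z : 𝓞 (KK s)} (hz : z ≠ 0)
    (h1 : ∀ x : QB, x ^ 3 = em s z → RR x)
    (h2 : ∃ t : ℚ_[3], algebraMap ℚ_[3] (PadicAlgCl 3) t ^ 3 = ι₀ (em s z))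
    (h3 : ¬ ∃ y ∈ KK s, y ^ 3 = em s z) :
    ∃ (z' : 𝓞 (KK s)) (I : Ideal (𝓞 (KK s))) (j : ℕ), z' ≠ 0 ∧ I ≠ ⊥ ∧ j ≤ 1 ∧
      Ideal.span {z'} = I ^ 3 * pid s ι₁ ^ j ∧
      (∃ t : ℚ_[3], algebraMap ℚ_[3] (PadicAlgCl 3) t ^ 3 = ι₀ (em s z')) ∧
      ¬ ∃ y ∈ KK s, y ^ 3 = em s z' := by
  have hz0 : Ideal.span {z} ≠ ⊥ := by
    rw [Ne, Ideal.span_singleton_eq_bot]
    exact hz
  have hP1 := pid_Prime (s := s) ι₁
  obtain ⟨I, k, hI⟩ := cube_part hP1 _ (Ideal.span {z}) rfl hz0 fun P hP hne n J hA hJ =>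
    three_dvd hs hD hsf hι h1 h2 P hP hne n J hA hJ
  have hI0 : I ≠ ⊥ := by
    rintro rfl
    rw [← Ideal.zero_eq_bot, zero_pow (by norm_num), zero_mul] at hI
    exact hz0 hI
  obtain ⟨k', r, hr, rfl⟩ : ∃ k' r, r < 3 ∧ k = 3 * k' + r := ⟨k / 3, k % 3, by omega, by omega⟩
  have e1 : Ideal.span {z} = (I * pid s ι₁ ^ k') ^ 3 * pid s ι₁ ^ r := by
    rw [hI, pow_add, mul_pow, ← pow_mul, mul_comm k' 3]
    ring
  have hI' : I * pid s ι₁ ^ k' ≠ ⊥ := mul_ne_zero hI0 (pow_ne_zero _ hP1.ne_zero)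
  by_cases hr2 : r ≤ 1
  · exact ⟨z, _, r, hz, hI', hr2, e1, h2, h3⟩
  · obtain rfl : r = 2 := by omega
    have hz' : em s z ≠ 0 := by
      intro h
      exact hz (em_inj (by rw [h, map_zero]))
    refine ⟨z ^ 2, (I * pid s ι₁ ^ k') ^ 2 * pid s ι₁, 1, pow_ne_zero 2 hz, ?_, le_rfl, ?_, ?_, ?_⟩
    · exact mul_ne_zero (pow_ne_zero 2 hI') hP1.ne_zero
    · rw [← Ideal.span_singleton_pow, e1]
      ring
    · obtain ⟨t, ht⟩ := h2
      refine ⟨t ^ 2, ?_⟩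
      rw [map_pow (em s), map_pow ι₀, ← ht, map_pow]
      ring
    · rintro ⟨y, hy, hy3⟩
      rw [map_pow] at hy3
      have hy0 : y ≠ 0 := by
        rintro rfl
        rw [zero_pow (by norm_num)] at hy3
        exact pow_ne_zero 2 hz' hy3.symm
      refine h3 ⟨em s z / y, div_mem (em_mem z) hy, ?_⟩
      rw [div_pow, hy3]
      field_simp

end id

/-- the generic form, with any constant for the bound of Minkowski -/
theorem id_gen (B : ℝ) {D : ℕ} (hsf : Squarefree D) (hD : D % 3 = 2) {s : QB}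
    (hs : s ^ 2 = -(D : QB)) (hMK : ∀ C : ClassGroup (𝓞 (KK s)),
      ∃ I : nonZeroDivisors (Ideal (𝓞 (KK s))), ClassGroup.mk0 I = C ∧
        (Ideal.absNorm (I : Ideal (𝓞 (KK s))) : ℝ) ≤ B)
    (ι₀ ι₁ : QB →ₐ[ℚ] PadicAlgCl 3) (hι : ι₁ s = -ι₀ s) (hG : ¬ Good s ι₀) :
    ∃ (I : Ideal (𝓞 (KK s))) (b : 𝓞 (KK s)) (j : ℕ), Dta D s ι₀ ι₁ I b j ∧
      (Ideal.absNorm I : ℝ) ≤ B := by
  classical
  unfold Good at hG
  push Not at hG
  obtain ⟨a, haK, ha0, ha1, ha2, ha3⟩ := hG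
  -- an integral multiple
  obtain ⟨u, v, huv⟩ := Pool.Agent.Z384.KK_ex hs haK
  set m : ℕ := u.den * v.den with hm
  have hm0 : m ≠ 0 := mul_ne_zero u.den_ne_zero v.den_ne_zero
  have hmQ : (m : QB) ≠ 0 := by exact_mod_cast hm0
  obtain ⟨b1, hb1⟩ := form' hs (u.num * v.den) (v.num * u.den)
  have hb1' : em s b1 = m * a := by
    have hu : (u : QB) * u.den = u.num := by
      have := Rat.mul_den_eq_num u
      exact_mod_cast congrArg (fun x : ℚ => (x : QB)) this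
    have hv : (v : QB) * v.den = v.num := by
      have := Rat.mul_den_eq_num v
      exact_mod_cast congrArg (fun x : ℚ => (x : QB)) this
    rw [hb1, huv, hm]
    push_cast
    rw [← hu, ← hv]
    ring
  set z : 𝓞 (KK s) := (m : 𝓞 (KK s)) ^ 2 * b1 with hz
  have hez : em s z = (m : QB) ^ 3 * a := by
    rw [hz, map_mul, map_pow, map_natCast, hb1']
    ring
  have hz0 : z ≠ 0 := by
    intro h
    rw [h, map_zero] at hez
    exact mul_ne_zero (pow_ne_zero 3 hmQ) ha0 hez.symm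
  have hz1 : ∀ x : QB, x ^ 3 = em s z → RR x := by
    intro x hx
    have h1 : (x / m) ^ 3 = a := by
      rw [div_pow, hx, hez]
      field_simp
    have h2 := ha1 _ h1
    intro q hq ι hq3
    obtain ⟨k, hk⟩ := h2 q ι hq3
    obtain ⟨l, hl⟩ := norm_nat_pow ι hm0
    have hq0 : (q : ℝ) ≠ 0 := by exact_mod_cast hq.out.ne_zero
    refine ⟨k + (l + l), ?_⟩
    have e : x = x / m * m := by field_simp
    rw [e, map_mul, norm_mul, mul_pow, hk, hl, pow_two, ← zpow_add₀ hq0, ← zpow_add₀ hq0]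
  have hz2 : ∃ t : ℚ_[3], algebraMap ℚ_[3] (PadicAlgCl 3) t ^ 3 = ι₀ (em s z) := by
    obtain ⟨t, ht⟩ := ha2
    refine ⟨m * t, ?_⟩
    rw [hez, map_mul ι₀, map_pow ι₀, map_natCast ι₀, map_mul, map_natCast, ← ht]
    ring
  have hz3 : ¬ ∃ y ∈ KK s, y ^ 3 = em s z := by
    rintro ⟨y, hy, hy3⟩
    refine ha3 (y / m) (div_mem hy (natCast_mem _ m)) ?_
    rw [div_pow, hy3, hez]
    field_simp
  obtain ⟨w, I₀, j, hw0, hI₀, hj, hw, hw2, hw3⟩ := step_d hs hD hsf hι hz0 hz1 hz2 hz3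
  -- the ideal of minimal norm in the class
  have hI₀' : I₀ ∈ (Ideal (𝓞 (KK s)))⁰ := mem_nonZeroDivisors_of_ne_zero hI₀
  obtain ⟨I', hI'1, hI'2⟩ := hMK (ClassGroup.mk0 ⟨I₀, hI₀'⟩)
  have hex : ∃ n : ℕ, ∃ I : (Ideal (𝓞 (KK s)))⁰, ClassGroup.mk0 I = ClassGroup.mk0 ⟨I₀, hI₀'⟩ ∧
      Ideal.absNorm (I : Ideal (𝓞 (KK s))) = n := ⟨_, I', hI'1, rfl⟩
  obtain ⟨I, hI1, hI2⟩ := Nat.find_spec hex
  have hmin : ∀ I'' : (Ideal (𝓞 (KK s)))⁰, ClassGroup.mk0 I'' = ClassGroup.mk0 ⟨I₀, hI₀'⟩ →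
      Ideal.absNorm (I : Ideal (𝓞 (KK s))) ≤ Ideal.absNorm (I'' : Ideal (𝓞 (KK s))) := by
    intro I'' h
    rw [hI2]
    exact Nat.find_min' hex ⟨I'', h, rfl⟩
  have hIne : (I : Ideal (𝓞 (KK s))) ≠ ⊥ := nonZeroDivisors.coe_ne_zero I
  obtain ⟨x, y, hx0, hy0, hxy⟩ := ClassGroup.mk0_eq_mk0_iff.1 hI1.symm
  have hxy' : Ideal.span {x} * I₀ = Ideal.span {y} * (I : Ideal (𝓞 (KK s))) := hxy
  have e1 : Ideal.span {x ^ 3 * w} = Ideal.span {y ^ 3} *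
      ((I : Ideal (𝓞 (KK s))) ^ 3 * pid s ι₁ ^ j) := by
    rw [← Ideal.span_singleton_mul_span_singleton, ← Ideal.span_singleton_pow,
      ← Ideal.span_singleton_pow, hw, ← mul_assoc, ← mul_pow, hxy', mul_pow, mul_assoc]
  have e2 : x ^ 3 * w ∈ Ideal.span {y ^ 3} := by
    have h5 : x ^ 3 * w ∈ Ideal.span {x ^ 3 * w} := Ideal.mem_span_singleton_self _
    rw [e1] at h5
    have h6 : Ideal.span {y ^ 3} * ((I : Ideal (𝓞 (KK s))) ^ 3 * pid s ι₁ ^ j) ≤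
        Ideal.span {y ^ 3} := Ideal.mul_le_left
    exact h6 h5
  obtain ⟨b, hb⟩ := Ideal.mem_span_singleton.1 e2
  have hy3 : Ideal.span {y ^ 3} ≠ 0 := by
    rw [Ne, Ideal.zero_eq_bot, Ideal.span_singleton_eq_bot]
    exact pow_ne_zero 3 hy0
  have e3 : Ideal.span {b} = (I : Ideal (𝓞 (KK s))) ^ 3 * pid s ι₁ ^ j := by
    apply mul_left_cancel₀ hy3
    rw [← e1, hb, Ideal.span_singleton_mul_span_singleton]
  have hex0 : em s x ≠ 0 := fun h => hx0 (em_inj (by rw [h, map_zero]))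
  have hey0 : em s y ≠ 0 := fun h => hy0 (em_inj (by rw [h, map_zero]))
  have hemb : em s x ^ 3 * em s w = em s y ^ 3 * em s b := by
    rw [← map_pow, ← map_mul, hb, map_mul, map_pow]
  refine ⟨I, b, j, ⟨hj, hIne, ?_, e3, ?_, ?_, ?_⟩, ?_⟩
  · rintro rfl
    rw [mul_zero] at hb
    exact mul_ne_zero (pow_ne_zero 3 hx0) hw0 hb
  · rintro q hq ⟨I'', hI''⟩
    have hI''0 : I'' ≠ ⊥ := by
      rintro rfl
      rw [Ideal.mul_bot] at hI''
      exact hIne hI''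
    have h1 : ClassGroup.mk0 (⟨I'', mem_nonZeroDivisors_of_ne_zero hI''0⟩ :
        (Ideal (𝓞 (KK s)))⁰) = ClassGroup.mk0 I := by
      rw [ClassGroup.mk0_eq_mk0_iff]
      refine ⟨(q : 𝓞 (KK s)), 1, Nat.cast_ne_zero.2 hq.ne_zero, one_ne_zero, ?_⟩
      rw [Ideal.span_singleton_one, Ideal.top_mul]
      exact hI''.symm
    have h2 := hmin _ (h1.trans hI1)
    have h3 : Ideal.absNorm (I : Ideal (𝓞 (KK s))) = q ^ 2 * Ideal.absNorm I'' := by
      rw [hI'', map_mul, absNorm_nat hs hD]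
    have h4 : Ideal.absNorm (I : Ideal (𝓞 (KK s))) ≤ Ideal.absNorm I'' := h2
    have h5 : 0 < Ideal.absNorm I'' := by
      rw [Nat.pos_iff_ne_zero, Ne, Ideal.absNorm_eq_zero_iff]
      exact hI''0
    have h6 := hq.two_le
    have h7 : 4 * Ideal.absNorm I'' ≤ q ^ 2 * Ideal.absNorm I'' :=
      Nat.mul_le_mul_right _ (by nlinarith)
    linarith
  · obtain ⟨t, ht⟩ := hw2
    obtain ⟨X, hX⟩ := loc_all hs hD ι₀ (em_mem (s := s) x)
    obtain ⟨Y, hY⟩ := loc_all hs hD ι₀ (em_mem (s := s) y)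
    have hY0 : ι₀ (em s y) ≠ 0 := (map_ne_zero ι₀).2 hey0
    refine ⟨X * t / Y, ?_⟩
    have h1 := congrArg ι₀ hemb
    rw [map_mul, map_mul, map_pow, map_pow] at h1
    rw [map_div₀, map_mul, hX, hY, div_pow, mul_pow, ht, h1]
    field_simp
  · rintro ⟨y₀, hy₀, hy₀3⟩
    refine hw3 ⟨em s y * y₀ / em s x, div_mem (mul_mem (em_mem y) hy₀) (em_mem x), ?_⟩
    rw [div_pow, mul_pow, hy₀3, ← hemb]
    field_simp
  · have h1 : (Ideal.absNorm (I : Ideal (𝓞 (KK s))) : ℝ) ≤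
        Ideal.absNorm (I' : Ideal (𝓞 (KK s))) := by exact_mod_cast hmin I' hI'1
    exact h1.trans hI'2

theorem s_ID (hMK : Pool.Agent.L7h48.SGQ.S_MK) : Pool.Agent.L7h48.SGQ.S_ID := by
  intro D hsf hD s hs ι₀ ι₁ hι hG
  exact id_gen _ hsf hD hs (fun C => hMK D (by omega) s hs C) ι₀ ι₁ hι hG

end Pool.Agent.L7h73.SGQ
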