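import Pool.Agent.L7h73.SGQ.Base

set_option autoImplicit false
set_option linter.unusedSectionVars false

/-!
# Project SGQ (helper48), part R0
-/

namespace Pool.Agent.L7h73.SGQ

open Pool.Agent.L7h48.SG Pool.Agent.L7h48.SGP
open Pool.Agent.L7h15.SG (em pid mem_pid em_int em_mem em_surj norm_int_le integral_iota
  integral_map exists_pow_principal norm_p_lt)
open Pool.Agent.Y715.Gi (QB KK GK)
open Pool.Agent.L7h73.SGP (rat_int sq_int em_inj exists_tau gen norm_q em_le pid_prime q_mem pid_ne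
  pid_Prime kl exists_q absNorm_gt exists_ord exists_root prime_eq cube_part norm_nat_pow sq_cube)
open NumberField

/-- modulo four -/
lemma par {D : ℕ} (hD : D % 12 = 5 ∨ D % 12 = 2) {x y N : ℤ} (h : x ^ 2 + D * y ^ 2 = 4 * N) :
    (2 : ℤ) ∣ x ∧ (2 : ℤ) ∣ y := by
  have key : ∀ a b : ZMod 4, ∀ d : ZMod 4, (d = 1 ∨ d = 2) → a ^ 2 + d * b ^ 2 = 0 →
      2 * a = 0 ∧ 2 * b = 0 := by decide
  have hD4 : ((D : ℕ) : ZMod 4) = 1 ∨ ((D : ℕ) : ZMod 4) = 2 := by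
    have h1 : D % 4 = 1 ∨ D % 4 = 2 := by omega
    rcases h1 with h1 | h1
    · left
      have h2 : ((D : ℕ) : ZMod 4) = ((1 : ℕ) : ZMod 4) := by
        rw [ZMod.natCast_eq_natCast_iff']
        exact h1
      rw [h2]
      rfl
    · right
      have h2 : ((D : ℕ) : ZMod 4) = ((2 : ℕ) : ZMod 4) := by
        rw [ZMod.natCast_eq_natCast_iff']
        exact h1
      rw [h2]
      rfl
  have h1 := congrArg (Int.cast : ℤ → ZMod 4) h
  push_cast at h1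
  have h40 : (4 : ZMod 4) = 0 := by decide
  rw [h40, zero_mul] at h1
  obtain ⟨h3, h4⟩ := key _ _ _ hD4 h1
  have aux : ∀ z : ℤ, 2 * (z : ZMod 4) = 0 → (2 : ℤ) ∣ z := by
    intro z hz
    have h4 : (((2 * z : ℤ)) : ZMod 4) = 0 := by
      push_cast
      exact hz
    rw [ZMod.intCast_zmod_eq_zero_iff_dvd] at h4
    have h5 : (4 : ℤ) ∣ 2 * z := by exact_mod_cast h4
    omega
  exact ⟨aux x h3, aux y h4⟩

/-- the integers of `ℚ(√-D)` -/
theorem form2 {s : QB} {D : ℕ} (hs : s ^ 2 = -(D : QB)) (hsf : Squarefree D)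
    (hD : D % 12 = 5 ∨ D % 12 = 2) (b : 𝓞 (KK s)) :
    ∃ x y : ℤ, em s b = (x : QB) + (y : QB) * s := by
  obtain ⟨x, y, h1, N, hN⟩ := form hs hsf (by omega) b
  obtain ⟨⟨x', rfl⟩, y', rfl⟩ := par hD hN
  refine ⟨x', y', ?_⟩
  rw [h1]
  push_cast
  ring

theorem absNorm_em2 {s : QB} {D : ℕ} (hs : s ^ 2 = -(D : QB)) (hD : D % 3 = 2) (b : 𝓞 (KK s))
    (x y : ℤ) (hb : em s b = (x : QB) + (y : QB) * s) :
    ((Ideal.absNorm (Ideal.span {b}) : ℕ) : ℤ) = x ^ 2 + D * y ^ 2 := by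
  have h := absNorm_em hs hD b (2 * x) (2 * y) (by rw [hb]; push_cast; ring)
  push_cast at h
  linarith

theorem s_R0 : Pool.Agent.L7h48.SGQ.S_R0 := by
  intro D hsf hD2 s hs ι₀ ι₁ hι I b j h
  have hD : D % 3 = 2 := by omega
  have hι' : ι₀ s = -ι₁ s := by rw [hι, neg_neg]
  obtain ⟨x, y, h1⟩ := form2 hs hsf hD2 b
  have h3 := absNorm_em2 hs hD b x y h1
  have h4 : Ideal.absNorm (Ideal.span {b}) = Ideal.absNorm I ^ 3 * 3 ^ j := by
    rw [h.span, map_mul, map_pow, map_pow, (three_eq hs hD hι).2.2]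
  have h5 : x ^ 2 + D * y ^ 2 = 3 ^ j * (Ideal.absNorm I : ℤ) ^ 3 := by
    rw [← h3, h4]
    push_cast
    ring
  refine ⟨x, y, h1, ?_, h5⟩
  rintro rfl
  have h6 : em s b = (x : QB) := by
    rw [h1]
    push_cast
    ring
  have h7 : x ^ 2 = 3 ^ j * (Ideal.absNorm I : ℤ) ^ 3 := by linarith
  -- `j = 0`
  have hP0 := pid_Prime (s := s) ι₀
  have hP1 := pid_Prime (s := s) ι₁
  obtain ⟨a, J, e1, e2⟩ := exists_ord hP0 h.I0
  obtain ⟨a', J', e1', e2'⟩ := exists_ord hP1 h.I0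
  have n0 : ‖ι₀ (em s b)‖ = (1 / 3 : ℝ) ^ (3 * a) := by
    refine norm3 hs hD hι b (3 * a) (J ^ 3 * pid s ι₁ ^ j) ?_ ?_
    · rw [h.span, e1, mul_pow, ← pow_mul, mul_comm a 3, mul_assoc]
    · intro hd
      rcases hP0.dvd_or_dvd hd with hd | hd
      · exact e2 (hP0.dvd_of_dvd_pow hd)
      · exact not_dvd hs hD hι (hP0.dvd_of_dvd_pow hd)
  have n1 : ‖ι₁ (em s b)‖ = (1 / 3 : ℝ) ^ (3 * a' + j) := by
    refine norm3 hs hD hι' b (3 * a' + j) (J' ^ 3) ?_ ?_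
    · rw [h.span, e1', mul_pow, ← pow_mul, mul_comm a' 3, pow_add]
      ring
    · intro hd
      exact e2' (hP1.dvd_of_dvd_pow hd)
  have n2 : ‖ι₀ (em s b)‖ = ‖ι₁ (em s b)‖ := by
    rw [h6, map_intCast, map_intCast]
  rw [n0, n1] at n2
  have n3 : 3 * a = 3 * a' + j := by
    by_contra hne
    rcases lt_or_gt_of_ne hne with h8 | h8
    · exact absurd n2 (ne_of_gt (pow_lt_pow_right_of_lt_one₀ (by norm_num) (by norm_num) h8))
    · exact absurd n2 (ne_of_lt (pow_lt_pow_right_of_lt_one₀ (by norm_num) (by norm_num) h8))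
  have j0 : j = 0 := by
    have := h.j1
    omega
  rw [j0, pow_zero, one_mul] at h7
  have h8 : x.natAbs ^ 2 = Ideal.absNorm I ^ 3 := by
    have h9 : ((x.natAbs ^ 2 : ℕ) : ℤ) = ((Ideal.absNorm I ^ 3 : ℕ) : ℤ) := by
      push_cast
      rw [sq_abs]
      exact h7
    exact_mod_cast h9
  obtain ⟨n, hn⟩ := sq_cube h8
  apply h.not_cube
  rcases Int.natAbs_eq x with h9 | h9
  · refine ⟨(n : QB), natCast_mem _ n, ?_⟩
    rw [h6, h9, hn]
    push_cast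
    rfl
  · refine ⟨-(n : QB), neg_mem (natCast_mem _ n), ?_⟩
    rw [h6, h9, hn]
    push_cast
    ring

end Pool.Agent.L7h73.SGQ
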