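import Pool.Agent.L7h73.SGQ.R0

set_option autoImplicit false
set_option linter.unusedSectionVars false

/-!
# Project SGQ (helper48), part R2
-/

namespace Pool.Agent.L7h73.SGQ

open Pool.Agent.L7h48.SG Pool.Agent.L7h48.SGP
open Pool.Agent.L7h15.SG (em pid mem_pid em_int em_mem em_surj norm_int_le integral_iota
  integral_map exists_pow_principal norm_p_lt)
open Pool.Agent.Y715.Gi (QB KK GK)
open Pool.Agent.L7h73.SGP (rat_int sq_int em_inj exists_tau gen norm_q em_le pid_prime q_mem pid_ne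
  pid_Prime kl exists_q absNorm_gt exists_ord exists_root prime_eq cube_part norm_nat_pow sq_cube)
open NumberField

section two

variable {s : QB} {D : ℕ} (hs : s ^ 2 = -(D : QB)) (hsf : Squarefree D)
  (hD : D % 12 = 5 ∨ D % 12 = 2)

include hs hD in
/-- `(2) = P²` -/
lemma two_eq : ∃ P : Ideal (𝓞 (KK s)), P ^ 2 = Ideal.span {(2 : 𝓞 (KK s))} ∧ P.IsMaximal ∧
    Ideal.absNorm P = 2 := by
  obtain ⟨σ, hσ⟩ := form' hs 0 1
  have hσ' : em s σ = s := by
    rw [hσ]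
    push_cast
    ring
  have hσ2 : σ ^ 2 = -(D : 𝓞 (KK s)) := by
    apply em_inj
    rw [map_pow, hσ', hs, map_neg, map_natCast]
  set P : Ideal (𝓞 (KK s)) := Ideal.span {(2 : 𝓞 (KK s)), (D : 𝓞 (KK s)) + σ} with hP
  have h2P : (2 : 𝓞 (KK s)) ∈ P := Ideal.subset_span (by simp)
  have hDP : (D : 𝓞 (KK s)) + σ ∈ P := Ideal.subset_span (by simp)
  have e1 : P ^ 2 ≤ Ideal.span {(2 : 𝓞 (KK s))} := by
    rw [pow_two, hP, Ideal.span_mul_span', Ideal.span_le]
    obtain ⟨k, hk⟩ : ∃ k : ℕ, D * D = D + 2 * k := by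
      have : D * D % 2 = D % 2 := by
        rcases Nat.mod_two_eq_zero_or_one D with h | h <;> rw [Nat.mul_mod, h]
      have h2 : D ≤ D * D := Nat.le_mul_self D
      exact ⟨(D * D - D) / 2, by omega⟩
    have hk' : (D : 𝓞 (KK s)) * D = D + 2 * k := by exact_mod_cast hk
    rintro x ⟨a, ha, b, hb, rfl⟩
    simp only [Set.mem_insert_iff, Set.mem_singleton_iff] at ha hb
    change a * b ∈ Ideal.span {(2 : 𝓞 (KK s))}
    rw [Ideal.mem_span_singleton]
    rcases ha with rfl | rfl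
    · exact dvd_mul_right _ _
    · rcases hb with rfl | rfl
      · exact dvd_mul_left _ _
      · refine ⟨k + D * σ, ?_⟩
        linear_combination hσ2 + hk'
  have e2 : Ideal.span {(2 : 𝓞 (KK s))} ≤ P ^ 2 := by
    rw [Ideal.span_singleton_le_iff_mem]
    obtain ⟨k, hk⟩ : ∃ k : ℕ, D * (D + 1) = 2 + 4 * k := by
      have h1 : D % 4 = 1 ∨ D % 4 = 2 := by omega
      have h3 : D * (D + 1) % 4 = 2 := by
        rcases h1 with h | h <;> rw [Nat.mul_mod, Nat.add_mod, h]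
      exact ⟨D * (D + 1) / 4, by omega⟩
    have hk' : (D : 𝓞 (KK s)) * (D + 1) = 2 + 4 * k := by exact_mod_cast hk
    have h4 : (2 : 𝓞 (KK s)) * 2 ∈ P ^ 2 := by
      rw [pow_two]
      exact Ideal.mul_mem_mul h2P h2P
    have h5 : (2 : 𝓞 (KK s)) * (D + σ) ∈ P ^ 2 := by
      rw [pow_two]
      exact Ideal.mul_mem_mul h2P hDP
    have h6 : ((D : 𝓞 (KK s)) + σ) * (D + σ) ∈ P ^ 2 := by
      rw [pow_two]
      exact Ideal.mul_mem_mul hDP hDP
    have h7 : (2 : 𝓞 (KK s)) = (D : 𝓞 (KK s)) * (2 * (D + σ)) - (D + σ) * (D + σ) -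
        (k : 𝓞 (KK s)) * (2 * 2) := by
      linear_combination hσ2 - hk'
    have h8 : (D : 𝓞 (KK s)) * (2 * (D + σ)) - (D + σ) * (D + σ) -
        (k : 𝓞 (KK s)) * (2 * 2) ∈ P ^ 2 :=
      sub_mem (sub_mem (Ideal.mul_mem_left _ _ h5) h6) (Ideal.mul_mem_left _ _ h4)
    rw [← h7] at h8
    exact h8
  have e3 : P ^ 2 = Ideal.span {(2 : 𝓞 (KK s))} := le_antisymm e1 e2
  have e4 : Ideal.absNorm P = 2 := by
    have h1 := congrArg Ideal.absNorm e3
    have h2 := absNorm_nat (s := s) hs (by omega) 2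
    rw [Nat.cast_ofNat] at h2
    rw [h2, map_pow] at h1
    exact Nat.pow_left_injective two_ne_zero h1
  have e5 : P.IsPrime := Ideal.isPrime_of_irreducible_absNorm (by rw [e4]; exact Nat.prime_two)
  refine ⟨P, e3, e5.isMaximal ?_, e4⟩
  intro h
  rw [h, Ideal.absNorm_bot] at e4
  omega

include hs hD hsf in
/-- an ideal of even norm is divisible by `P` -/
lemma dvd_of_even {P : Ideal (𝓞 (KK s))} (hP : P ^ 2 = Ideal.span {(2 : 𝓞 (KK s))})
    (hPm : P.IsMaximal) {J : Ideal (𝓞 (KK s))} (hJ : Ideal.absNorm J % 2 = 0) : P ∣ J := by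
  rw [Ideal.dvd_iff_le]
  by_contra hcon
  have h1 : P ⊔ J = ⊤ := by
    by_contra h
    have h2 := hPm.eq_of_le h le_sup_left
    rw [h2] at hcon
    exact hcon le_sup_right
  have h2 : IsCoprime J (P ^ 2) := by
    apply IsCoprime.pow_right
    rw [Ideal.isCoprime_iff_sup_eq, sup_comm]
    exact h1
  rw [hP, Ideal.isCoprime_iff_exists] at h2
  obtain ⟨a, ha, b, hb, hab⟩ := h2
  obtain ⟨c, rfl⟩ := Ideal.mem_span_singleton.1 hb
  obtain ⟨x, y, hc⟩ := form2 hs hsf hD c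
  have h3 : em s a = ((1 - 2 * x : ℤ) : QB) + ((-2 * y : ℤ) : QB) * s := by
    have h4 : a = 1 - 2 * c := by linear_combination hab
    rw [h4, map_sub, map_mul, map_one, map_ofNat, hc]
    push_cast
    ring
  have h5 := absNorm_em2 hs (by omega) a _ _ h3
  have h6 : Ideal.absNorm J ∣ Ideal.absNorm (Ideal.span {a}) := by
    apply Ideal.absNorm_dvd_absNorm_of_le
    rw [Ideal.span_singleton_le_iff_mem]
    exact ha
  have h7 : (2 : ℤ) ∣ (1 - 2 * x) ^ 2 + D * (-2 * y) ^ 2 := by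
    rw [← h5]
    have h8 : 2 ∣ Ideal.absNorm (Ideal.span {a}) := (Nat.dvd_of_mod_eq_zero hJ).trans h6
    exact_mod_cast h8
  obtain ⟨k, hk⟩ := h7
  have h9 : (2 : ℤ) ∣ 1 := ⟨k + 2 * x - 2 * x ^ 2 - 2 * D * y ^ 2, by linarith⟩
  norm_num at h9

end two

theorem s_R2 : Pool.Agent.L7h48.SGQ.S_R2 := by
  intro D hsf hD2 s hs ι₀ ι₁ hι I b j h
  have hD : D % 3 = 2 := by omega
  have hι' : ι₀ s = -ι₁ s := by rw [hι, neg_neg]
  obtain ⟨P, hP, hPm, hPn⟩ := two_eq hs hD2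
  refine ⟨fun h4 => ?_, fun h2 => ?_, ?_⟩
  · obtain ⟨J, hJ⟩ := dvd_of_even hs hsf hD2 hP hPm (J := I) (by omega)
    have h5 : Ideal.absNorm I = 2 * Ideal.absNorm J := by rw [hJ, map_mul, hPn]
    obtain ⟨J', hJ'⟩ := dvd_of_even hs hsf hD2 hP hPm (J := J) (by omega)
    refine h.prim 2 Nat.prime_two ?_
    rw [Nat.cast_ofNat, ← hP, hJ, hJ', pow_two, ← mul_assoc]
    exact dvd_mul_right _ _
  · obtain ⟨J, hJ⟩ := dvd_of_even hs hsf hD2 hP hPm (J := I) h2
    have h5 : Ideal.span {(2 : 𝓞 (KK s))} ∣ Ideal.span {b} := by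
      rw [h.span, hJ, ← hP, mul_pow, mul_assoc]
      exact (pow_dvd_pow P (by norm_num)).mul_right _
    rw [Ideal.dvd_span_singleton, Ideal.mem_span_singleton] at h5
    exact h5
  · rintro ⟨h1, h2⟩
    have hP0 := pid_Prime (s := s) ι₀
    have hP1 := pid_Prime (s := s) ι₁
    have e1 : pid s ι₀ ^ 3 ∣ I ^ 3 * pid s ι₁ ^ j := by
      rw [← h.span]
      refine dvd_of_norm hs hD hι h.b0 (h1.trans (le_of_eq ?_))
      norm_num
    have e2 : pid s ι₁ ^ (3 + j) ∣ I ^ 3 * pid s ι₁ ^ j := by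
      rw [← h.span]
      refine dvd_of_norm hs hD hι' h.b0 (h2.trans (le_of_eq ?_))
      rw [pow_add]
      norm_num
    have e3 : pid s ι₁ ∣ I := by
      rw [pow_add] at e2
      have e4 := (mul_dvd_mul_iff_right (pow_ne_zero j hP1.ne_zero)).1 e2
      exact hP1.dvd_of_dvd_pow ((dvd_pow_self _ (by norm_num)).trans e4)
    have e4 : pid s ι₀ ∣ I := by
      have e5 : pid s ι₀ ∣ I ^ 3 * pid s ι₁ ^ j := (dvd_pow_self _ (by norm_num)).trans e1
      rcases hP0.dvd_or_dvd e5 with e6 | e6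
      · exact hP0.dvd_of_dvd_pow e6
      · exact absurd (hP0.dvd_of_dvd_pow e6) (not_dvd hs hD hι)
    obtain ⟨I', hI'⟩ := e4
    rw [hI'] at e3
    have e5 := (hP1.dvd_or_dvd e3).resolve_left (not_dvd hs hD hι')
    refine h.prim 3 Nat.prime_three ?_
    rw [(three_eq hs hD hι).1, hI']
    exact mul_dvd_mul_left _ e5

end Pool.Agent.L7h73.SGQ
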