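import Pool.Agent.L7h73.SGP.Id
import Pool.Agent.L7h73.SGP.R0
import Pool.Agent.L7h48.SGQ.Stm

set_option autoImplicit false
set_option linter.unusedSectionVars false

/-!
# Project SGQ (helper48): the ring of integers of `ℚ(√-D)` and its primes, `D ≡ 2` modulo `3`
-/

namespace Pool.Agent.L7h73.SGQ

open Pool.Agent.L7h48.SG Pool.Agent.L7h48.SGP
open Pool.Agent.L7h15.SG (em pid mem_pid em_int em_mem em_surj norm_int_le integral_iota
  integral_map exists_pow_principal norm_p_lt)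
open Pool.Agent.Y715.Gi (QB KK GK)
open Pool.Agent.L7h73.SGP (rat_int sq_int em_inj exists_tau gen norm_q em_le pid_prime q_mem pid_ne
  pid_Prime kl exists_q absNorm_gt exists_ord exists_root prime_eq cube_part norm_nat_pow sq_cube)
open NumberField

section elem

variable {s : QB} {D : ℕ} (hs : s ^ 2 = -(D : QB)) (hsf : Squarefree D) (hD : D % 3 = 2)

include hD in
lemma D0 : D ≠ 0 := by rintro rfl; simp at hD

include hs hD in
lemma s_ne : s ≠ 0 := by
  rintro rfl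
  have h := D0 hD
  rw [zero_pow two_ne_zero, eq_comm, neg_eq_zero] at hs
  exact h (by exact_mod_cast hs)

include hs hD in
lemma uv_inj {u v u' v' : ℚ} (h : (u : QB) + v * s = u' + v' * s) : u = u' ∧ v = v' := by
  obtain ⟨c, hc⟩ := Pool.Agent.Z384.exists_conj hs (D0 hD)
  have h1 := congrArg c h
  simp only [map_add, map_mul, map_ratCast, hc] at h1
  have h2 : (u : QB) = u' := by linear_combination (h + h1) / 2
  have h3 : (v : QB) * s = v' * s := by linear_combination (h - h1) / 2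
  have h4 := mul_right_cancel₀ (s_ne hs hD) h3
  exact ⟨by exact_mod_cast h2, by exact_mod_cast h4⟩

include hs hsf hD in
/-- the integers of `ℚ(√-D)` -/
theorem form (b : 𝓞 (KK s)) : ∃ x y : ℤ, em s b = ((x : QB) + (y : QB) * s) / 2 ∧
    (4 : ℤ) ∣ x ^ 2 + D * y ^ 2 := by
  obtain ⟨c, hc⟩ := Pool.Agent.Z384.exists_conj hs (D0 hD)
  obtain ⟨u, v, huv⟩ := Pool.Agent.Z384.KK_ex hs (em_mem b)
  have hi := em_int b
  have hci : IsIntegral ℤ (c (em s b)) := integral_map c hi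
  have h1 : c (em s b) = u - v * s := by
    rw [huv, map_add, map_mul, map_ratCast, map_ratCast, hc]
    ring
  have h2 : em s b + c (em s b) = ((2 * u : ℚ) : QB) := by
    rw [h1, huv]
    push_cast
    ring
  have h3 : em s b * c (em s b) = ((u ^ 2 + D * v ^ 2 : ℚ) : QB) := by
    rw [h1, huv]
    push_cast
    linear_combination -(v : QB) ^ 2 * hs
  obtain ⟨x, hx⟩ := rat_int (h2 ▸ hi.add hci)
  obtain ⟨N, hN⟩ := rat_int (h3 ▸ hi.mul hci)
  obtain ⟨y, hy⟩ := sq_int (w := 2 * v) (M := 4 * N - x ^ 2) hsf (by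
    push_cast
    rw [hx, hN]
    ring)
  have h4 : x ^ 2 + D * y ^ 2 = 4 * N := by
    have h5 : ((x ^ 2 + D * y ^ 2 : ℤ) : ℚ) = ((4 * N : ℤ) : ℚ) := by
      push_cast
      rw [hx, hy, hN]
      ring
    exact_mod_cast h5
  refine ⟨x, y, ?_, ⟨N, h4⟩⟩
  have e1 : (x : QB) = 2 * u := by
    have : (((x : ℚ)) : QB) = ((2 * u : ℚ) : QB) := by rw [hx]
    push_cast at this
    exact this
  have e2 : (y : QB) = 2 * v := by
    have : (((y : ℚ)) : QB) = ((2 * v : ℚ) : QB) := by rw [hy]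
    push_cast at this
    exact this
  rw [huv, e1, e2]
  ring

include hs in
/-- the integers of `ℚ(√-D)` -/
theorem form' (x y : ℤ) : ∃ b : 𝓞 (KK s), em s b = (x : QB) + (y : QB) * s := by
  have hsK : s ∈ KK s := IntermediateField.mem_adjoin_simple_self ℚ s
  have hsi : IsIntegral ℤ s := by
    refine ⟨Polynomial.X ^ 2 + Polynomial.C (D : ℤ), ?_, ?_⟩
    · monicity!
    · simp only [Polynomial.eval₂_add, Polynomial.eval₂_pow, Polynomial.eval₂_X,
        Polynomial.eval₂_C]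
      rw [map_natCast, hs]
      ring
  exact em_surj (add_mem (intCast_mem _ x) (mul_mem (intCast_mem _ y) hsK))
    ((isIntegral_intCast (R := ℤ) x).add ((isIntegral_intCast (R := ℤ) y).mul hsi))

include hs hD in
lemma finrankK : Module.finrank ℚ (KK s) = 2 := by
  have hint : IsIntegral ℚ s := (Algebra.IsAlgebraic.isAlgebraic s).isIntegral
  rw [IntermediateField.adjoin.finrank hint]
  apply le_antisymm
  · have h1 : minpoly ℚ s ∣ Polynomial.X ^ 2 + Polynomial.C (D : ℚ) := by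
      apply minpoly.dvd
      simp only [map_add, map_pow, Polynomial.aeval_X, hs, map_natCast]
      ring
    have h2 : (Polynomial.X ^ 2 + Polynomial.C (D : ℚ)).natDegree = 2 :=
      Polynomial.natDegree_X_pow_add_C
    have h3 : (Polynomial.X ^ 2 + Polynomial.C (D : ℚ)) ≠ 0 := by
      intro h
      rw [h, Polynomial.natDegree_zero] at h2
      omega
    exact (Polynomial.natDegree_le_of_dvd h1 h3).trans h2.le
  · rw [minpoly.two_le_natDegree_iff hint]
    rintro ⟨q, hq⟩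
    obtain ⟨c, hc⟩ := Pool.Agent.Z384.exists_conj hs (D0 hD)
    have h1 : c s = s := by
      rw [← hq, AlgEquiv.commutes]
    rw [hc] at h1
    have h2 : s = 0 := by linear_combination -(1 / 2 : QB) * h1
    exact s_ne hs hD h2

include hs hD in
lemma finrankO : Module.finrank ℤ (𝓞 (KK s)) = 2 := by
  rw [RingOfIntegers.rank, finrankK hs hD]

include hs hD in
lemma absNorm_nat (n : ℕ) : Ideal.absNorm (Ideal.span {((n : ℕ) : 𝓞 (KK s))}) = n ^ 2 := by
  rw [Ideal.absNorm_span_natCast, finrankO hs hD]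

include hs hD in
/-- the norm of an integer -/
theorem absNorm_em (b : 𝓞 (KK s)) (x y : ℤ) (hb : em s b = ((x : QB) + (y : QB) * s) / 2) :
    ((4 * Ideal.absNorm (Ideal.span {b}) : ℕ) : ℤ) = x ^ 2 + D * y ^ 2 := by
  obtain ⟨c, hc⟩ := Pool.Agent.Z384.exists_conj hs (D0 hD)
  obtain ⟨τ, hτ, -⟩ := exists_tau hs hc
  have h1 : Ideal.absNorm (Ideal.span {τ b}) = Ideal.absNorm (Ideal.span {b}) := by
    have h2 : Ideal.span {τ b} = (Ideal.span {b}).map τ := by
      rw [Ideal.map_span, Set.image_singleton]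
    rw [h2, Ideal.absNorm_apply, Ideal.absNorm_apply, Submodule.cardQuot_apply,
      Submodule.cardQuot_apply]
    exact Nat.card_congr (Ideal.quotientEquiv _ _ τ rfl).toEquiv.symm
  have hpos : 0 ≤ x ^ 2 + D * y ^ 2 := by positivity
  have h3 : (4 : 𝓞 (KK s)) * (b * τ b) = (((x ^ 2 + D * y ^ 2).toNat : ℕ) : 𝓞 (KK s)) := by
    apply em_inj
    have h4 : (((x ^ 2 + D * y ^ 2).toNat : ℕ) : QB) = (x : QB) ^ 2 + D * (y : QB) ^ 2 := by
      have h5 : (((x ^ 2 + D * y ^ 2).toNat : ℕ) : ℤ) = x ^ 2 + D * y ^ 2 := Int.toNat_of_nonneg hpos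
      have h6 := congrArg (fun z : ℤ => (z : QB)) h5
      push_cast at h6
      exact h6
    rw [map_mul, map_mul, map_natCast, h4, hτ, hb, map_div₀, map_add, map_mul, hc, map_intCast,
      map_intCast, map_ofNat, map_ofNat]
    linear_combination -(y : QB) ^ 2 * hs
  have h7 := congrArg (fun z : 𝓞 (KK s) => Ideal.absNorm (Ideal.span {z})) h3
  rw [absNorm_nat hs hD, ← Ideal.span_singleton_mul_span_singleton,
    ← Ideal.span_singleton_mul_span_singleton, map_mul, map_mul, h1] at h7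
  have h8 : Ideal.absNorm (Ideal.span {(4 : 𝓞 (KK s))}) = 4 ^ 2 := by
    have := absNorm_nat hs hD 4
    push_cast at this
    exact this
  rw [h8] at h7
  have h9 : (4 * Ideal.absNorm (Ideal.span {b})) ^ 2 = (x ^ 2 + D * y ^ 2).toNat ^ 2 := by
    rw [← h7]
    ring
  have h10 := Nat.pow_left_injective two_ne_zero h9
  rw [h10]
  exact Int.toNat_of_nonneg hpos

end elem

section prm

variable {s : QB} {D : ℕ} (hs : s ^ 2 = -(D : QB)) (hsf : Squarefree D) (hD : D % 3 = 2)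

variable {q : ℕ} [hq : Fact q.Prime]

include hs hsf hD in
/-- norms of elements -/
lemma mul_tau {c : QB ≃ₐ[ℚ] QB} (hc : c s = -s) {τ : 𝓞 (KK s) ≃+* 𝓞 (KK s)}
    (hτ : ∀ b, em s (τ b) = c (em s b)) (b : 𝓞 (KK s)) : ∃ n : ℤ, b * τ b = (n : 𝓞 (KK s)) := by
  obtain ⟨x, y, h1, N, hN⟩ := form hs hsf hD b
  refine ⟨N, em_inj ?_⟩
  have hN' : (x : QB) ^ 2 + D * (y : QB) ^ 2 = 4 * N := by exact_mod_cast hN
  rw [map_mul, hτ, h1, map_div₀, map_add, map_mul, hc, map_intCast, map_intCast, map_ofNat,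
    map_intCast]
  linear_combination (1 / 4 : QB) * hN' - (1 / 4 : QB) * (y : QB) ^ 2 * hs

include hs hsf hD in
/-- every prime is given by a place -/
theorem exists_place (P : Ideal (𝓞 (KK s))) (hP : P.IsPrime) (hP0 : P ≠ ⊥) :
    ∃ (q : ℕ) (_ : Fact q.Prime) (ι : QB →ₐ[ℚ] PadicAlgCl q), pid s ι = P := by
  obtain ⟨q, hqp, hqP⟩ := exists_q hP (Ideal.absNorm P) (by
    rw [Ne, Ideal.absNorm_eq_zero_iff]
    exact hP0) (Ideal.absNorm_mem P)
  have hq : Fact q.Prime := ⟨hqp⟩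
  obtain ⟨c, hc⟩ := Pool.Agent.Z384.exists_conj hs (D0 hD)
  obtain ⟨τ, hτ, -⟩ := exists_tau hs hc
  let ι : QB →ₐ[ℚ] PadicAlgCl q := IsAlgClosed.lift
  have hmax : P.IsMaximal := hP.isMaximal hP0
  have h1 : (P : Set (𝓞 (KK s))) ⊆ pid s ι ∪ pid s (ι.comp (c : QB →ₐ[ℚ] QB)) := by
    intro z hz
    obtain ⟨n, hn⟩ := mul_tau hs hsf hD hc hτ z
    have h2 : (n : 𝓞 (KK s)) ∈ P := hn ▸ P.mul_mem_right _ hz
    have h3 : (q : ℤ) ∣ n := by
      by_contra hcon
      have h4 : IsCoprime (q : ℤ) n := (Nat.prime_iff_prime_int.1 hqp).coprime_iff_not_dvd.2 hcon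
      obtain ⟨a, b, hab⟩ := h4
      have h5 : (1 : 𝓞 (KK s)) ∈ P := by
        have h6 : (a : 𝓞 (KK s)) * (q : 𝓞 (KK s)) + (b : 𝓞 (KK s)) * (n : 𝓞 (KK s)) = 1 := by
          exact_mod_cast congrArg (fun z : ℤ => (z : 𝓞 (KK s))) hab
        rw [← h6]
        exact P.add_mem (P.mul_mem_left _ hqP) (P.mul_mem_left _ h2)
      exact hP.ne_top ((Ideal.eq_top_iff_one P).2 h5)
    obtain ⟨k, rfl⟩ := h3
    have h4 : z * τ z ∈ pid s ι := by
      rw [hn, Int.cast_mul, Int.cast_natCast]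
      exact Ideal.mul_mem_right _ _ (q_mem ι)
    rcases (pid_prime (s := s) ι).mem_or_mem h4 with h5 | h5
    · exact Or.inl h5
    · refine Or.inr ?_
      rw [mem_pid, hτ] at h5
      exact h5
  rw [Ideal.subset_union] at h1
  rcases h1 with h2 | h2
  · exact ⟨q, hq, ι, (hmax.eq_of_le (pid_prime ι).ne_top h2).symm⟩
  · exact ⟨q, hq, _, (hmax.eq_of_le (pid_prime _).ne_top h2).symm⟩

end prm

section three

variable {s : QB} {D : ℕ} (hs : s ^ 2 = -(D : QB)) (hsf : Squarefree D) (hD : D % 3 = 2)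
  {ι₀ ι₁ : QB →ₐ[ℚ] PadicAlgCl 3} (hι : ι₁ s = -ι₀ s)

include hs hD hι in
lemma exists_t3 : ∃ t : 𝓞 (KK s), t ∈ pid s ι₀ ∧ t ∉ pid s ι₁ := by
  have hs2 : (ι₀ s) ^ 2 = -(D : PadicAlgCl 3) := by rw [← map_pow, hs, map_neg, map_natCast]
  have hi : ‖ι₀ s‖ ≤ 1 := by
    obtain ⟨b, hb⟩ := form' hs 0 1
    have := em_le ι₀ b
    rw [hb] at this
    have e : (((0 : ℤ) : QB) + ((1 : ℤ) : QB) * s) = s := by
      push_cast
      ring
    rwa [e] at this
  obtain ⟨k, hk⟩ : 3 ∣ D + 1 := by omega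
  have h3 : ‖(3 : PadicAlgCl 3)‖ < 1 := by
    have := norm_p_lt (p := 3)
    exact_mod_cast this
  have hnat : ∀ n : ℕ, ‖(n : PadicAlgCl 3)‖ ≤ 1 := fun n =>
    norm_int_le (isIntegral_natCast (R := ℤ) n)
  have h2 : ‖(2 : PadicAlgCl 3)‖ = 1 := by
    have := Pool.Agent.L7h15.SG.norm_nat_eq (p := 3) (n := 2) (by norm_num)
    exact_mod_cast this
  have h4 : ‖ι₀ s - 1‖ * ‖ι₀ s + 1‖ < 1 := by
    have e : (ι₀ s - 1) * (ι₀ s + 1) = -(3 * (k : PadicAlgCl 3)) := by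
      have hk' : (D : PadicAlgCl 3) + 1 = 3 * k := by exact_mod_cast hk
      linear_combination hs2 - hk'
    rw [← norm_mul, e, norm_neg, norm_mul]
    nlinarith [hnat k, norm_nonneg (3 : PadicAlgCl 3), norm_nonneg (k : PadicAlgCl 3)]
  have key : ∀ ε : ℤ, (ε = 1 ∨ ε = -1) → ‖ι₀ s - ε‖ < 1 →
      ∃ t : 𝓞 (KK s), t ∈ pid s ι₀ ∧ t ∉ pid s ι₁ := by
    intro ε hε h5
    obtain ⟨t, ht⟩ := form' hs (-ε) 1
    have e : em s t = s - ε := by
      rw [ht]
      push_cast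
      ring
    refine ⟨t, ?_, ?_⟩
    · rw [mem_pid, e, map_sub, map_intCast]
      exact h5
    · rw [mem_pid, e, map_sub, map_intCast, hι]
      intro h6
      have h7 : (2 * ε : PadicAlgCl 3) = -((-ι₀ s - ε) + (ι₀ s - ε)) := by ring
      have h8 : ‖(2 * ε : PadicAlgCl 3)‖ < 1 := by
        rw [h7, norm_neg]
        exact (IsUltrametricDist.norm_add_le_max _ _).trans_lt (max_lt h6 h5)
      rw [norm_mul, h2, one_mul] at h8
      rcases hε with rfl | rfl
      · rw [Int.cast_one, norm_one] at h8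
        exact lt_irrefl _ h8
      · rw [Int.cast_neg, Int.cast_one, norm_neg, norm_one] at h8
        exact lt_irrefl _ h8
  by_cases h5 : ‖ι₀ s - 1‖ < 1
  · exact key 1 (Or.inl rfl) (by rwa [Int.cast_one])
  · refine key (-1) (Or.inr rfl) ?_
    rw [Int.cast_neg, Int.cast_one, sub_neg_eq_add]
    push Not at h5
    by_contra h6
    push Not at h6
    nlinarith

include hs hD hι in
lemma pid_ne_pid : pid s ι₀ ≠ pid s ι₁ := by
  obtain ⟨t, h1, h2⟩ := exists_t3 hs hD hι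
  intro h
  rw [h] at h1
  exact h2 h1

include hs hD hι in
lemma not_dvd : ¬ pid s ι₀ ∣ pid s ι₁ := by
  intro h
  rw [Ideal.dvd_iff_le] at h
  have hmax : (pid s ι₁).IsMaximal := (pid_prime ι₁).isMaximal (pid_ne ι₁)
  exact pid_ne_pid hs hD hι (hmax.eq_of_le (pid_prime ι₀).ne_top h).symm

include hs hD hι in
/-- `(3) = P₀ P₁` -/
theorem three_eq : Ideal.span {((3 : ℕ) : 𝓞 (KK s))} = pid s ι₀ * pid s ι₁ ∧
    Ideal.absNorm (pid s ι₀) = 3 ∧ Ideal.absNorm (pid s ι₁) = 3 := by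
  have hP0 := pid_Prime (s := s) ι₀
  have hP1 := pid_Prime (s := s) ι₁
  have d0 : pid s ι₀ ∣ Ideal.span {((3 : ℕ) : 𝓞 (KK s))} := by
    rw [Ideal.dvd_span_singleton]
    exact q_mem ι₀
  have d1 : pid s ι₁ ∣ Ideal.span {((3 : ℕ) : 𝓞 (KK s))} := by
    rw [Ideal.dvd_span_singleton]
    exact q_mem ι₁
  obtain ⟨J, hJ⟩ := d0
  rw [hJ] at d1
  have hι' : ι₀ s = -ι₁ s := by rw [hι, neg_neg]
  obtain ⟨J', hJ'⟩ := (hP1.dvd_or_dvd d1).resolve_left (not_dvd hs hD hι')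
  rw [hJ'] at hJ
  have h1 := congrArg Ideal.absNorm hJ
  rw [absNorm_nat hs hD, map_mul, map_mul] at h1
  have g0 := absNorm_gt (s := s) (pid_ne ι₀) (pid_prime (s := s) ι₀).ne_top
  have g1 := absNorm_gt (s := s) (pid_ne ι₁) (pid_prime (s := s) ι₁).ne_top
  generalize Ideal.absNorm (pid s ι₀) = a at h1 g0 ⊢
  generalize Ideal.absNorm (pid s ι₁) = b at h1 g1 ⊢
  obtain ⟨j, hj⟩ : ∃ j, Ideal.absNorm J' = j := ⟨_, rfl⟩
  rw [hj] at h1
  have ha : a ∣ 3 ^ 2 := ⟨_, h1⟩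
  have hb : b ∣ 3 ^ 2 := ⟨a * j, by rw [h1]; ring⟩
  rw [Nat.dvd_prime_pow Nat.prime_three] at ha hb
  obtain ⟨i, hi, rfl⟩ := ha
  obtain ⟨l, hl, rfl⟩ := hb
  have i0 : i ≠ 0 := by rintro rfl; norm_num at g0
  have l0 : l ≠ 0 := by rintro rfl; norm_num at g1
  have j0 : j ≠ 0 := by rintro rfl; norm_num at h1
  have hil : i = 1 ∧ l = 1 ∧ j = 1 := by
    have i2 : i = 1 ∨ i = 2 := by omega
    have l2 : l = 1 ∨ l = 2 := by omega
    rcases i2 with rfl | rfl <;> rcases l2 with rfl | rfl <;> omega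
  obtain ⟨rfl, rfl, rfl⟩ := hil
  rw [Ideal.absNorm_eq_one_iff] at hj
  rw [hJ, hj, Ideal.mul_top]
  exact ⟨rfl, by norm_num, by norm_num⟩

include hs hD hι in
/-- the norm at a place above three -/
theorem norm3 (z : 𝓞 (KK s)) (n : ℕ) (J : Ideal (𝓞 (KK s)))
    (h1 : Ideal.span {z} = pid s ι₀ ^ n * J) (h2 : ¬ pid s ι₀ ∣ J) :
    ‖ι₀ (em s z)‖ = (1 / 3 : ℝ) ^ n := by
  have h3 := (three_eq hs hD hι).1
  have h4 := kl ι₀ z n 1 J (pid s ι₁) h1 h2 (by rw [h3, pow_one]) (not_dvd hs hD hι)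
  rw [pow_one] at h4
  rw [h4]
  norm_num

include hs hD hι in
theorem dvd_of_norm {z : 𝓞 (KK s)} (hz : z ≠ 0) {k : ℕ} (h : ‖ι₀ (em s z)‖ ≤ (1 / 3 : ℝ) ^ k) :
    pid s ι₀ ^ k ∣ Ideal.span {z} := by
  obtain ⟨n, J, h1, h2⟩ := exists_ord (pid_Prime (s := s) ι₀) (A := Ideal.span {z}) (by
    rw [Ne, Ideal.span_singleton_eq_bot]
    exact hz)
  rw [norm3 hs hD hι z n J h1 h2] at h
  have h3 : k ≤ n := by
    by_contra hcon
    push Not at hcon
    exact absurd h (not_le.2 (pow_lt_pow_right_of_lt_one₀ (by norm_num) (by norm_num) hcon))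
  rw [h1]
  exact (pow_dvd_pow _ h3).mul_right J

end three

end Pool.Agent.L7h73.SGQ
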